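import Pool.Agent.K3h26.R5.Stm

/-!
# Brick SL: the layers of a lattice tiling
-/

set_option autoImplicit false

open Filter Topology Set

namespace Pool.Agent.K3h86.R5

open Pool.Agent.K3h26.R5

/-- a vector of the lattice all of whose coordinates are less than `1` vanishes -/
theorem eq_zero_of_small {L : AddSubgroup (Fin 5 → ℝ)} (hL : IsT L) {v : Fin 5 → ℝ} (hv : v ∈ L)
    (h : ∀ i, |v i| < 1) : v = 0 := by
  by_contra h0
  have h1 := h 0
  have h2 := h 1
  have h3 := h 2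
  have h4 := h 3
  have h5 := h 4
  rcases hL.1 v hv h0 with h6 | h6 | h6
  · unfold n1 at h6
    linarith
  · unfold ni at h6
    have : max |v 0| (max |v 1| |v 2|) < 2 :=
      max_lt (by linarith) (max_lt (by linarith) (by linarith))
    linarith
  · unfold my at h6
    have : max |v 3| |v 4| < 1 := max_lt h4 h5
    linarith

/-- the vectors of the lattice in a box are finitely many -/
theorem finite_box {L : AddSubgroup (Fin 5 → ℝ)} (hL : IsT L) (R : ℝ) :
    {v : Fin 5 → ℝ | v ∈ L ∧ ∀ i, |v i| ≤ R}.Finite := by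
  have hfin : (Set.Icc (fun _ : Fin 5 => ⌊-R⌋) (fun _ : Fin 5 => ⌊R⌋) : Set (Fin 5 → ℤ)).Finite :=
    Set.finite_Icc _ _
  refine Set.Finite.of_finite_image (f := fun v : Fin 5 → ℝ => fun i => ⌊v i⌋)
    (hfin.subset ?_) ?_
  · rintro _ ⟨v, ⟨-, hv⟩, rfl⟩
    refine ⟨fun i => ?_, fun i => ?_⟩
    · exact Int.floor_le_floor (abs_le.1 (hv i)).1
    · exact Int.floor_le_floor (abs_le.1 (hv i)).2
  · rintro v ⟨hv, -⟩ v' ⟨hv', -⟩ h
    have h1 : v - v' = 0 := by
      refine eq_zero_of_small hL (L.sub_mem hv hv') fun i => ?_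
      have h2 : ⌊v i⌋ = ⌊v' i⌋ := congrFun h i
      exact Int.abs_sub_lt_one_of_floor_eq_floor h2
    exact sub_eq_zero.1 h1

/-- the layer over `(a, b)` -/
def UU (L : AddSubgroup (Fin 5 → ℝ)) (a b : ℝ) : Set (Fin 3 → ℝ) :=
  {u | ∃ w ∈ L, w 0 = u 0 ∧ w 1 = u 1 ∧ w 2 = u 2 ∧ -(1 / 2) ≤ a - w 3 ∧ a - w 3 < 1 / 2 ∧
    -(1 / 2) ≤ b - w 4 ∧ b - w 4 < 1 / 2}

theorem layer (hTO : S_TO) {L : AddSubgroup (Fin 5 → ℝ)} (hL : IsT L) {a b : ℝ}
    (ha : -(1 / 2) ≤ a) (ha' : a < 1 / 2) (hb : -(1 / 2) ≤ b) (hb' : b < 1 / 2)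
    (u : Fin 3 → ℝ) :
    u ∈ UU L a b ↔ ∃ i j k : ℤ, u 0 = 2 * i + k ∧ u 1 = 2 * j + k ∧ u 2 = k := by
  refine hTO (UU L a b) ?_ ?_ ?_ u
  · refine ⟨0, L.zero_mem, rfl, rfl, rfl, ?_, ?_, ?_, ?_⟩ <;> simp <;> linarith
  · rintro u ⟨w, hw, hw0, hw1, hw2, hw3, hw3', hw4, hw4'⟩ u'
      ⟨w', hw', hw0', hw1', hw2', hz3, hz3', hz4, hz4'⟩ hne
    have hd : w - w' ≠ 0 := by
      intro h
      apply hne
      have h0 : w = w' := sub_eq_zero.1 h
      subst h0
      funext i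
      fin_cases i
      · exact hw0.symm.trans hw0'
      · exact hw1.symm.trans hw1'
      · exact hw2.symm.trans hw2'
    have h3 : |(w - w') 3| < 1 := by
      rw [Pi.sub_apply, abs_lt]
      constructor <;> linarith
    have h4 : |(w - w') 4| < 1 := by
      rw [Pi.sub_apply, abs_lt]
      constructor <;> linarith
    rcases hL.1 _ (L.sub_mem hw hw') hd with h | h | h
    · left
      unfold n1 at h
      simp only [Pi.sub_apply, hw0, hw1, hw2, hw0', hw1', hw2'] at h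
      exact h
    · right
      unfold ni at h
      simp only [Pi.sub_apply, hw0, hw1, hw2, hw0', hw1', hw2', le_max_iff] at h
      exact h
    · unfold my at h
      have := max_lt h3 h4
      linarith
  · intro x
    -- the points above `x`
    let d : ℕ → ℝ := fun n => 1 / ((n : ℝ) + 1)
    have hd0 : ∀ n, 0 < d n := fun n => by positivity
    have hd1 : ∀ n, d n ≤ 1 := fun n => by
      have : (0 : ℝ) ≤ n := Nat.cast_nonneg n
      rw [div_le_one (by positivity)]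
      linarith
    have hdt : Tendsto d atTop (𝓝 0) := tendsto_one_div_add_atTop_nhds_zero_nat
    let y : ℕ → Fin 5 → ℝ := fun n => ![x 0, x 1, x 2, a + d n, b + d n]
    have hy : ∀ n, ∃ v ∈ L, n1 (y n - v) ≤ 3 / 2 ∧ ni (y n - v) ≤ 1 ∧ my (y n - v) ≤ 1 / 2 :=
      fun n => hL.2 (y n)
    choose f hfL hf1 hf2 hf3 using hy
    have e0 : ∀ n, (y n - f n) 0 = x 0 - f n 0 := fun n => rfl
    have e1 : ∀ n, (y n - f n) 1 = x 1 - f n 1 := fun n => rfl
    have e2 : ∀ n, (y n - f n) 2 = x 2 - f n 2 := fun n => rfl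
    have e3 : ∀ n, (y n - f n) 3 = a + d n - f n 3 := fun n => rfl
    have e4 : ∀ n, (y n - f n) 4 = b + d n - f n 4 := fun n => rfl
    have g1 : ∀ n, |x 0 - f n 0| + |x 1 - f n 1| + |x 2 - f n 2| ≤ 3 / 2 := fun n => by
      have := hf1 n
      unfold n1 at this
      rwa [e0, e1, e2] at this
    have g2 : ∀ n, |x 0 - f n 0| ≤ 1 ∧ |x 1 - f n 1| ≤ 1 ∧ |x 2 - f n 2| ≤ 1 := fun n => by
      have := hf2 n
      unfold ni at this
      rwa [e0, e1, e2, max_le_iff, max_le_iff] at this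
    have g3 : ∀ n, |a + d n - f n 3| ≤ 1 / 2 ∧ |b + d n - f n 4| ≤ 1 / 2 := fun n => by
      have := hf3 n
      unfold my at this
      rwa [e3, e4, max_le_iff] at this
    let R : ℝ := |x 0| + |x 1| + |x 2| + 4
    have hR : ∀ n i, |f n i| ≤ R := by
      intro n i
      have q0 := abs_nonneg (x 0)
      have q1 := abs_nonneg (x 1)
      have q2 := abs_nonneg (x 2)
      obtain ⟨r0, r1, r2⟩ := g2 n
      obtain ⟨r3, r4⟩ := g3 n
      have s0 := abs_sub_abs_le_abs_sub (f n 0) (x 0)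
      have s1 := abs_sub_abs_le_abs_sub (f n 1) (x 1)
      have s2 := abs_sub_abs_le_abs_sub (f n 2) (x 2)
      rw [abs_sub_comm] at s0 s1 s2
      have t0 := hd0 n
      have t1 := hd1 n
      have r3' := abs_le.1 r3
      have r4' := abs_le.1 r4
      fin_cases i
      · show |f n 0| ≤ |x 0| + |x 1| + |x 2| + 4
        linarith
      · show |f n 1| ≤ |x 0| + |x 1| + |x 2| + 4
        linarith
      · show |f n 2| ≤ |x 0| + |x 1| + |x 2| + 4
        linarith
      · show |f n 3| ≤ |x 0| + |x 1| + |x 2| + 4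
        rw [abs_le]
        constructor <;> linarith
      · show |f n 4| ≤ |x 0| + |x 1| + |x 2| + 4
        rw [abs_le]
        constructor <;> linarith
    have hfin := finite_box hL R
    have : Finite {v : Fin 5 → ℝ | v ∈ L ∧ ∀ i, |v i| ≤ R} := hfin.to_subtype
    obtain ⟨w, hw⟩ := Finite.exists_infinite_fiber
      (fun n : ℕ => (⟨f n, hfL n, hR n⟩ : {v : Fin 5 → ℝ | v ∈ L ∧ ∀ i, |v i| ≤ R}))
    have hinf : {n : ℕ | f n = w.1}.Infinite := by
      refine (Set.infinite_coe_iff.1 hw).mono ?_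
      intro n hn
      exact congrArg Subtype.val hn
    have hfreq : ∃ᶠ n in atTop, f n = w.1 := Nat.frequently_atTop_iff_infinite.2 hinf
    obtain ⟨n0, hn0⟩ := hinf.nonempty
    have hn0 : f n0 = w.1 := hn0
    have hwL : w.1 ∈ L := w.2.1
    have k1 := g1 n0
    have k2 := g2 n0
    have k3 := g3 n0
    rw [hn0] at k1 k2 k3
    have t3 : Tendsto (fun n => a + d n - w.1 3) atTop (𝓝 (a + 0 - w.1 3)) :=
      (tendsto_const_nhds.add hdt).sub tendsto_const_nhds
    have t4 : Tendsto (fun n => b + d n - w.1 4) atTop (𝓝 (b + 0 - w.1 4)) :=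
      (tendsto_const_nhds.add hdt).sub tendsto_const_nhds
    have l3 : -(1 / 2) ≤ a + 0 - w.1 3 := by
      refine ge_of_tendsto_of_frequently t3 (hfreq.mono fun n hn => ?_)
      have := (abs_le.1 (g3 n).1).1
      rwa [hn] at this
    have l4 : -(1 / 2) ≤ b + 0 - w.1 4 := by
      refine ge_of_tendsto_of_frequently t4 (hfreq.mono fun n hn => ?_)
      have := (abs_le.1 (g3 n).2).1
      rwa [hn] at this
    have z0 := hd0 n0
    have z3 := (abs_le.1 k3.1).2
    have z4 := (abs_le.1 k3.2).2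
    refine ⟨![w.1 0, w.1 1, w.1 2], ⟨w.1, hwL, rfl, rfl, rfl, by linarith, by linarith,
      by linarith, by linarith⟩, k1, k2.1, k2.2.1, k2.2.2⟩

/-- brick SL -/
theorem t_SL (hTO : S_TO) : S_SL := by
  intro L hL
  refine ⟨?_, ?_⟩
  · intro v hv hmy
    unfold my at hmy
    obtain ⟨h3, h4⟩ := max_lt_iff.1 hmy
    obtain ⟨h3, h3'⟩ := abs_lt.1 h3
    obtain ⟨h4, h4'⟩ := abs_lt.1 h4
    have key : ∀ t : ℝ, -1 < t → t < 1 → ∃ a : ℝ, -(1 / 2) ≤ a ∧ a < 1 / 2 ∧
        -(1 / 2) ≤ a - t ∧ a - t < 1 / 2 := by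
      intro t ht ht'
      rcases le_or_gt 0 t with h | h
      · exact ⟨t - 1 / 2, by linarith, by linarith, by linarith, by linarith⟩
      · exact ⟨-(1 / 2), by linarith, by linarith, by linarith, by linarith⟩
    obtain ⟨a, a1, a2, a3, a4⟩ := key (v 3) h3 h3'
    obtain ⟨b, b1, b2, b3, b4⟩ := key (v 4) h4 h4'
    exact (layer hTO hL a1 a2 b1 b2 ![v 0, v 1, v 2]).1
      ⟨v, hv, rfl, rfl, rfl, a3, a4, b3, b4⟩
  · intro i j k a b a1 a2 b1 b2
    obtain ⟨w, hw, w0, w1, w2, h⟩ := (layer hTO hL a1 a2 b1 b2 ![2 * i + k, 2 * j + k, k]).2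
      ⟨i, j, k, rfl, rfl, rfl⟩
    exact ⟨w, hw, w0, w1, w2, h⟩

end Pool.Agent.K3h86.R5
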